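import Mathlib
import Pool.Agent.H15.Tmp

set_option autoImplicit false

namespace Pool.Agent.Results.MP_e33ffa_co.Seven

open SimpleGraph Set

/-- A temporal `k`-colouring of the temporal graph with snapshots `G`. -/
def TCol {V : Type} {T : ℕ} (G : Fin T → SimpleGraph V) (k : ℕ) (c : Fin T → V → Fin k) : Prop :=
  (∀ i j : Fin T, i.1 ≤ j + 1 → j.1 ≤ i + 1 → ∀ u v, (G i).Adj u v → c j u ≠ c j v) ∧
  ∀ j j' : Fin T, j'.1 = j + 1 → ∀ u v, (G j ⊔ G j').Adj u v →
    c j u ≠ c j v ∧ c j' u ≠ c j' v ∧ c j u ≠ c j' v ∧ c j' u ≠ c j v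

/-- The temporal chromatic number. -/
noncomputable def chi {V : Type} {T : ℕ} (G : Fin T → SimpleGraph V) : ℕ :=
  sInf {k | ∃ c, TCol G k c}

inductive W
  | root : W
  | node : (Fin 14 → W) → W

def dp : W → ℕ
  | .root => 0
  | .node f => Finset.univ.sup (fun i => dp (f i)) + 1

lemma dp_lt (f : Fin 14 → W) (i : Fin 14) : dp (f i) < dp (.node f) :=
  Nat.lt_succ_of_le (Finset.le_sup (f := fun i => dp (f i)) (Finset.mem_univ i))

lemma fin (n : ℕ) : {w | dp w ≤ n}.Finite := by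
  induction n with
  | zero => exact (finite_singleton .root).subset (by rintro (_ | f) h <;> simp_all [dp])
  | succ n ih =>
    refine (((Finite.pi' fun _ => ih).image W.node).insert .root).subset ?_
    rintro (_ | f) h
    exacts [.inl rfl, .inr ⟨f, fun i => Nat.le_of_lt_succ ((dp_lt f i).trans_le h), rfl⟩]

def G (N : ℕ) (i : Fin 14) : SimpleGraph {w | dp w ≤ N} :=
  .fromRel fun u v => ∃ f, u.1 = .node f ∧ v.1 = f i

lemma tree (N : ℕ) (i : Fin 14) : (G N i).IsTree := by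
  have := (fin N).to_subtype
  let r : {w | dp w ≤ N} := ⟨.root, N.zero_le⟩
  have c : (G N i).Connected := by
    refine (connected_iff_exists_forall_reachable _).2 ⟨r, fun ⟨w, h⟩ => ?_⟩
    induction w with
    | root => rfl
    | node f ih =>
      refine (ih i ((dp_lt f i).le.trans h)).trans (Adj.reachable ⟨fun e => ?_, .inr ⟨f, rfl, rfl⟩⟩)
      exact (dp_lt f i).ne (congrArg (dp ·.1) e)
  refine isTree_iff_connected_and_card.2 ⟨c, le_antisymm ?_ c.card_vert_le_card_edgeSet_add_one⟩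
  let p : {w | dp w ≤ N} → Option (G N i).edgeSet
    | ⟨.root, _⟩ => none
    | ⟨.node f, h⟩ => some ⟨s(⟨.node f, h⟩, ⟨f i, (dp_lt f i).le.trans h⟩),
        fun e => (dp_lt f i).ne' (congrArg (dp ·.1) e), .inl ⟨f, rfl, rfl⟩⟩
  rw [← Finite.card_option]
  refine Nat.card_le_card_of_surjective p ?_
  rintro (_ | ⟨⟨⟨u, hu⟩, ⟨v, hv⟩⟩, k⟩)
  · exact ⟨r, rfl⟩
  rcases k.2 with ⟨f, a, b⟩ | ⟨f, a, b⟩ <;> dsimp only at a b <;> subst a b
  exacts [⟨⟨_, hu⟩, rfl⟩, ⟨⟨_, hv⟩, congrArg some (Subtype.ext Sym2.eq_swap)⟩]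

lemma ex (l : List (Fin 8)) (h : l.length = 7) : ∃ x, x ∉ l := by
  by_contra! k
  have := (List.subperm_of_subset (List.nodup_finRange 8) fun x _ => k x).length_le
  simp [h] at this

noncomputable def col : W → Fin 14 → Fin 8
  | .root => 0
  | .node f => fun t => (ex [col (f (t - 1)) (t - 1), col (f (t - 1)) t, col (f t) (t - 1),
      col (f t) t, col (f t) (t + 1), col (f (t + 1)) t, col (f (t + 1)) (t + 1)] rfl).choose

def R (i t u : Fin 14) : Prop := i = t - 1 ∧ (u = t - 1 ∨ u = t) ∨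
  i = t ∧ (u = t - 1 ∨ u = t ∨ u = t + 1) ∨ i = t + 1 ∧ (u = t ∨ u = t + 1)

lemma colp (f : Fin 14 → W) (i t u : Fin 14) (a : R i t u) : col (.node f) t ≠ col (f i) u := by
  have := (ex [col (f (t - 1)) (t - 1), col (f (t - 1)) t, col (f t) (t - 1),
      col (f t) t, col (f t) (t + 1), col (f (t + 1)) t, col (f (t + 1)) (t + 1)] rfl).choose_spec
  intro e
  rw [col] at e
  beta_reduce at e
  rw [e] at this
  rcases a with ⟨rfl, rfl | rfl⟩ | ⟨rfl, rfl | rfl | rfl⟩ | ⟨rfl, rfl | rfl⟩ <;> simp at this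

lemma up (N : ℕ) : TCol (G N) 8 fun t w => col w t := by
  have k : ∀ i t u : Fin 14, R i t u → R i u t → ∀ x y, (G N i).Adj x y → col x t ≠ col y u := by
    rintro i t u a b x y ⟨-, ⟨f, p, q⟩ | ⟨f, p, q⟩⟩ <;> rw [p, q]
    exacts [colp f i t u a, (colp f i u t b).symm]
  refine ⟨fun i j a b => k i j j (by unfold R; omega) (by unfold R; omega), ?_⟩
  rintro j j' e u v (h | h) <;> refine ⟨?_, ?_, ?_, ?_⟩ <;>
    exact k _ _ _ (by unfold R; omega) (by unfold R; omega) _ _ h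

lemma low (k : ℕ) (hk : k ≤ 6) (c) : ¬TCol (G (Nat.card (Fin 14 → Fin 6) + 1)) k c := by
  generalize e : Nat.card (Fin 14 → Fin 6) = M at *
  intro h
  let A (n : ℕ) : Set (Fin 14 → Fin 6) := (fun w t => (c t w).castLE hk) '' {w | dp w.1 ≤ n}
  obtain ⟨n, hn, s⟩ : ∃ n ≤ M, A (n + 1) ⊆ A n := by
    by_contra! q
    have : ∀ n ≤ M + 1, n ≤ (A n).ncard := fun n hn => by
      induction n with
      | zero => omega
      | succ n ih =>
        exact (ih (by omega)).trans_lt (ncard_lt_ncard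
          ⟨image_mono fun w (h : _ ≤ _) => h.trans n.le_succ, q n (by omega)⟩)
    have := (this _ le_rfl).trans (ncard_le_card _)
    omega
  refine H15.Tmp.no (S := (fun s t => s (Fin.ofNat 14 t)) '' A n)
    ⟨⟨_, _, ⟨⟨.root, by simp [dp]⟩, by simp [dp], rfl⟩, rfl⟩, fun f hf => ?_⟩
  choose _ m e using hf
  choose w m e' using m
  let x : W := .node fun i => (w i).1
  have d : dp x ≤ n + 1 := Nat.succ_le_succ (Finset.sup_le fun i _ => m i)
  refine ⟨_, ⟨_, s ⟨⟨x, d.trans (by omega)⟩, d, rfl⟩, rfl⟩, fun i t u a1 a2 a3 => ?_⟩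
  lift i to Fin 14 using a1
  lift t to Fin 14 using a2
  lift u to Fin 14 using a3
  intro b1 b2 b3 b4 b5 b6
  have a : (G _ i).Adj ⟨x, d.trans (by omega : n + 1 ≤ M + 1)⟩ (w i) :=
    ⟨fun e => (dp_lt _ i).ne' (congrArg (dp ·.1) e), .inl ⟨_, rfl, rfl⟩⟩
  simp only [← e, ← e', Fin.ofNat_val_eq_self, ne_eq, Fin.castLE_inj]
  rcases lt_trichotomy t u with l | rfl | l
  · exact (h.2 t u (by omega) _ _ (by rcases (by omega : i = t ∨ i = u) with rfl | rfl <;>
      simp [a])).2.2.1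
  · exact h.1 i t b2 b1 _ _ a
  · exact (h.2 u t (by omega) _ _ (by rcases (by omega : i = t ∨ i = u) with rfl | rfl <;>
      simp [a])).2.2.2

/-- A temporal graph whose snapshots are trees with temporal chromatic number 7 or 8. -/
theorem result : ∃ (V : Type) (_ : Finite V) (T : ℕ) (G : Fin T → SimpleGraph V),
    (∀ i, (G i).IsTree) ∧ (chi G = 7 ∨ chi G = 8) := by
  refine ⟨_, (fin _).to_subtype, 14, G (Nat.card (Fin 14 → Fin 6) + 1), tree _, ?_⟩
  have a : chi _ ≤ 8 := Nat.sInf_le ⟨_, up (Nat.card (Fin 14 → Fin 6) + 1)⟩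
  obtain ⟨c, b⟩ := Nat.sInf_mem (s := {k | ∃ c, TCol _ k c})
    ⟨8, _, up (Nat.card (Fin 14 → Fin 6) + 1)⟩
  have : ¬chi _ ≤ 6 := fun k => low _ k c b
  omega

end Pool.Agent.Results.MP_e33ffa_co.Seven
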